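import Pool.Agent.MP_797bdc_co.Defs

-- part MP_797bdc_co.Expand
section

/-! Collapsing sequences read backwards as expansions from a set of ridges. -/

namespace Pool.Agent.MP_797bdc_co

open Finset

variable {n d : ℕ}

lemma bdry_eq_zero {σ ρ : Finset (Fin n)} (h : ¬ ρ ⊆ σ) : bdry σ ρ = 0 := by
  refine Finset.sum_eq_zero fun v _ => ?_
  rw [if_neg]
  rintro rfl
  exact h (erase_subset _ _)

lemma bdry_ne_zero {σ ρ : Finset (Fin n)} (h : ρ ⊆ σ) (hc : σ.card = ρ.card + 1) :
    bdry σ ρ ≠ 0 := by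
  obtain ⟨v, hv, rfl⟩ := Finset.exists_eq_insert_iff.mpr ⟨h, hc.symm⟩
  unfold bdry
  rw [Finset.sum_eq_single v]
  · rw [if_pos (erase_insert hv)]
    exact pow_ne_zero _ (by norm_num)
  · intro w hw hwv
    rw [if_neg]
    intro e
    have : v ∈ (insert v ρ).erase w := mem_erase.mpr ⟨hwv.symm, mem_insert_self _ _⟩
    rw [e] at this
    exact hv this
  · intro h'
    exact (h' (mem_insert_self _ _)).elim

lemma Collapsible.coeff_zero {T : Finset (Finset (Fin n))} (h : Collapsible d T)
    (hT : ∀ σ ∈ T, σ.card = d + 1) (g : Finset (Fin n) → ℚ)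
    (hg : ∑ σ ∈ T, g σ • bdry σ = 0) : ∀ σ ∈ T, g σ = 0 := by
  induction h with
  | empty => simp
  | step T σ ρ hσ hρ hsub huniq _ ih =>
    have h0 : g σ = 0 := by
      have := congrFun hg ρ
      rw [Finset.sum_apply, Finset.sum_eq_single σ] at this
      · simp only [Pi.smul_apply, smul_eq_mul, Pi.zero_apply, mul_eq_zero] at this
        exact this.resolve_right (bdry_ne_zero hsub (by rw [hT σ hσ, hρ]))
      · intro σ' h' hne
        rw [Pi.smul_apply, bdry_eq_zero fun hs => hne (huniq σ' h' hs), smul_zero]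
      · exact fun h' => (h' hσ).elim
    have h1 : ∑ σ' ∈ T.erase σ, g σ' • bdry σ' = 0 := by
      rw [← Finset.add_sum_erase _ _ hσ, h0, zero_smul, zero_add] at hg
      exact hg
    intro σ' h'
    by_cases e : σ' = σ
    · rw [e, h0]
    · exact ih (fun s hs => hT s (mem_of_mem_erase hs)) h1 σ' (mem_erase.mpr ⟨e, h'⟩)

lemma Collapsible.linearIndependent {T : Finset (Finset (Fin n))} (h : Collapsible d T)
    (hT : ∀ σ ∈ T, σ.card = d + 1) : LinearIndependent ℚ (fun σ : T => bdry σ.1) := by
  rw [Fintype.linearIndependent_iff]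
  intro g hg σ
  have := h.coeff_zero hT (fun s => if hs : s ∈ T then g ⟨s, hs⟩ else 0) (by
    rw [← hg, ← Finset.sum_coe_sort T]
    refine Finset.sum_congr rfl fun s _ => ?_
    simp) σ.1 σ.2
  simpa using this

/-- `Exp d R T U`: the faces of `T` can be added one at a time, each together with exactly one
ridge that is new, starting from the ridge set `R` and ending with the ridge set `U`. -/
inductive Exp (d : ℕ) : Finset (Finset (Fin n)) → Finset (Finset (Fin n)) →
    Finset (Finset (Fin n)) → Prop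
  | nil (U : Finset (Finset (Fin n))) : Exp d U ∅ U
  | cons (R T U : Finset (Finset (Fin n))) (τ σ : Finset (Fin n)) : τ ∉ R → τ.card = d →
      τ ⊆ σ → σ.card = d + 1 → (∀ ρ, ρ ⊆ σ → ρ.card = d → ρ ≠ τ → ρ ∈ R) →
      Exp d (insert τ R) T U → Exp d R (insert σ T) U

lemma Exp.subset {R T U : Finset (Finset (Fin n))} (h : Exp d R T U) : R ⊆ U := by
  induction h with
  | nil U => exact Subset.refl _
  | cons R T U τ σ _ _ _ _ _ _ ih => exact (subset_insert _ _).trans ih

lemma Exp.card_face {R T U : Finset (Finset (Fin n))} (h : Exp d R T U) :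
    ∀ σ ∈ T, σ.card = d + 1 := by
  induction h with
  | nil U => simp
  | cons R T U τ σ _ _ _ hσ _ _ ih =>
    intro s hs
    rcases mem_insert.mp hs with rfl | hs
    · exact hσ
    · exact ih s hs

lemma Exp.not_mem {R T U : Finset (Finset (Fin n))} (h : Exp d R T U) {σ : Finset (Fin n)}
    (hσ : ∀ ρ, ρ ⊆ σ → ρ.card = d → ρ ∈ R) : σ ∉ T := by
  induction h with
  | nil U => simp
  | cons R T U τ σ' hτ hc hsub _ _ _ ih =>
    intro hs
    rcases mem_insert.mp hs with rfl | hs
    · exact hτ (hσ τ hsub hc)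
    · exact ih (fun ρ a b => mem_insert_of_mem (hσ ρ a b)) hs

lemma ridges_insert {R : Finset (Finset (Fin n))} {τ σ : Finset (Fin n)}
    (h : ∀ ρ, ρ ⊆ σ → ρ.card = d → ρ ≠ τ → ρ ∈ R) :
    ∀ ρ, ρ ⊆ σ → ρ.card = d → ρ ∈ insert τ R := by
  intro ρ a b
  by_cases e : ρ = τ
  · rw [e]; exact mem_insert_self _ _
  · exact mem_insert_of_mem (h ρ a b e)

lemma Exp.card_eq {R T U : Finset (Finset (Fin n))} (h : Exp d R T U) :
    U.card = R.card + T.card := by
  induction h with
  | nil U => simp
  | cons R T U τ σ hτ _ _ _ ho hE ih =>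
    rw [card_insert_of_notMem (hE.not_mem (ridges_insert ho)), ih, card_insert_of_notMem hτ]
    omega

lemma Exp.collapsible_union {R T U : Finset (Finset (Fin n))} (h : Exp d R T U) :
    ∀ S : Finset (Finset (Fin n)), Collapsible d S →
      (∀ s ∈ S, ∀ ρ, ρ ⊆ s → ρ.card = d → ρ ∈ R) → Collapsible d (S ∪ T) := by
  induction h with
  | nil U => intro S hS _; simpa using hS
  | cons R T U τ σ hτ hc hsub _ ho _ ih =>
    intro S hS hR
    have hσS : σ ∉ S := fun hs => hτ (hR σ hs τ hsub hc)
    have h1 : Collapsible d (insert σ S) := by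
      refine Collapsible.step _ σ τ (mem_insert_self _ _) hc hsub ?_ ?_
      · intro s hs hτs
        rcases mem_insert.mp hs with rfl | hs
        · rfl
        · exact (hτ (hR s hs τ hτs hc)).elim
      · rwa [erase_insert hσS]
    have h2 := ih _ h1 (by
      intro s hs ρ a b
      rcases mem_insert.mp hs with rfl | hs
      · exact ridges_insert ho ρ a b
      · exact mem_insert_of_mem (hR s hs ρ a b))
    rwa [insert_union, ← union_insert] at h2

lemma Exp.collapsible {R T U : Finset (Finset (Fin n))} (h : Exp d R T U) : Collapsible d T := by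
  simpa using h.collapsible_union ∅ Collapsible.empty (by simp)

lemma Exp.snoc {R T U : Finset (Finset (Fin n))} (h : Exp d R T U) {τ σ : Finset (Fin n)}
    (hτ : τ ∉ U) (hc : τ.card = d) (hsub : τ ⊆ σ) (hσ : σ.card = d + 1)
    (ho : ∀ ρ, ρ ⊆ σ → ρ.card = d → ρ ≠ τ → ρ ∈ U) : Exp d R (insert σ T) (insert τ U) := by
  induction h with
  | nil U => exact Exp.cons _ _ _ τ σ hτ hc hsub hσ ho (Exp.nil _)
  | cons R T U τ' σ' a b c e f _ ih =>
    rw [insert_comm]
    exact Exp.cons _ _ _ τ' σ' a b c e f (ih hτ ho)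

lemma Collapsible.exists_exp {T : Finset (Finset (Fin n))} (h : Collapsible d T) :
    (∀ σ ∈ T, σ.card = d + 1) → ∀ U : Finset (Finset (Fin n)),
      (∀ s ∈ T, ∀ ρ, ρ ⊆ s → ρ.card = d → ρ ∈ U) → ∃ R, Exp d R T U := by
  induction h with
  | empty => exact fun _ U _ => ⟨U, Exp.nil U⟩
  | step T σ τ hσ hc hsub huniq _ ih =>
    intro hT U hU
    obtain ⟨R, hR⟩ := ih (fun s hs => hT s (mem_of_mem_erase hs)) (U.erase τ) (by
      intro s hs ρ a b
      refine mem_erase.mpr ⟨?_, hU s (mem_of_mem_erase hs) ρ a b⟩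
      rintro rfl
      exact (mem_erase.mp hs).1 (huniq s (mem_of_mem_erase hs) a))
    have := hR.snoc (notMem_erase τ U) hc hsub (hT σ hσ)
      (fun ρ a b e => mem_erase.mpr ⟨e, hU σ hσ ρ a b⟩)
    rw [insert_erase hσ, insert_erase (hU σ hσ τ hsub hc)] at this
    exact ⟨R, this⟩

/-- Removing the face that brings in the ridge `τ'`. -/
lemma Exp.front {R T U : Finset (Finset (Fin n))} (h : Exp d R T U) {τ' : Finset (Fin n)}
    (hR : τ' ∉ R) (hU : τ' ∈ U) : ∃ σ ∈ T, Exp d (insert τ' R) (T.erase σ) U := by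
  induction h with
  | nil U => exact (hR hU).elim
  | cons R T U τ σ hτ hc hsub hσ ho hE ih =>
    have hσT : σ ∉ T := hE.not_mem (ridges_insert ho)
    by_cases e : τ' = τ
    · subst e
      exact ⟨σ, mem_insert_self _ _, by rwa [erase_insert hσT]⟩
    · obtain ⟨s, hs, h1⟩ := ih (by simp [e, hR]) hU
      refine ⟨s, mem_insert_of_mem hs, ?_⟩
      have hne : σ ≠ s := fun e' => hσT (e' ▸ hs)
      rw [erase_insert_of_ne hne]
      refine Exp.cons _ _ _ τ σ (by simp [Ne.symm e, hτ]) hc hsub hσ
        (fun ρ a b c => mem_insert_of_mem (ho ρ a b c)) ?_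
      rwa [insert_comm]

/-- One exchange between two expansions of `R` to `U`. -/
def Sw (d : ℕ) (R U A B : Finset (Finset (Fin n))) : Prop :=
  Exp d R A U ∧ Exp d R B U ∧ ∃ τ ∈ A, ∃ σ, σ ∉ A ∧ B = insert σ (A.erase τ)

lemma Exp.conn {R T' U : Finset (Finset (Fin n))} (h' : Exp d R T' U) :
    ∀ T, Exp d R T U → Relation.ReflTransGen (Sw d R U) T T' := by
  induction h' with
  | nil U =>
    intro T hT
    have := hT.card_eq
    rw [card_eq_zero.mp (by omega : T.card = 0)]
  | cons R T' U τ σ' hτ hc hsub hσ' ho hE ih =>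
    intro T hT
    obtain ⟨σ, hσ, h0⟩ := hT.front hτ (hE.subset (mem_insert_self _ _))
    have hn : σ' ∉ T.erase σ := h0.not_mem (ridges_insert ho)
    have h1 : Exp d R (insert σ' (T.erase σ)) U := Exp.cons _ _ _ τ σ' hτ hc hsub hσ' ho h0
    have c1 : Relation.ReflTransGen (Sw d R U) T (insert σ' (T.erase σ)) := by
      by_cases e : σ' = σ
      · rw [e, insert_erase hσ]
      · exact Relation.ReflTransGen.single
          ⟨hT, h1, σ, hσ, σ', fun hm => hn (mem_erase.mpr ⟨e, hm⟩), rfl⟩
    refine c1.trans ?_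
    refine Relation.ReflTransGen.lift (p := Sw d R U) (insert σ') ?_ _ _ (ih _ h0)
    rintro A B ⟨hA, hB, t, ht, s, hs, rfl⟩
    have hA' : σ' ∉ A := hA.not_mem (ridges_insert ho)
    have hB' := hB.not_mem (ridges_insert ho)
    refine ⟨Exp.cons _ _ _ τ σ' hτ hc hsub hσ' ho hA, Exp.cons _ _ _ τ σ' hτ hc hsub hσ' ho hB,
      t, mem_insert_of_mem ht, s, ?_, ?_⟩
    · intro hm
      rcases mem_insert.mp hm with rfl | hm
      · exact hB' (mem_insert_self _ _)
      · exact hs hm
    · rw [erase_insert_of_ne (fun e : σ' = t => hA' (e ▸ ht)), insert_comm]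

lemma Exp.isHypertree {R T U : Finset (Finset (Fin n))} (h : Exp d R T U)
    (hc : U.card = R.card + (n - 1).choose d) : IsHypertree n d T := by
  refine ⟨h.card_face, h.collapsible.linearIndependent h.card_face, ?_⟩
  have := h.card_eq
  omega

/-- All expansions of the same ridge set lie in one class of the restricted chain. -/
lemma Exp.exchange {R T T' U : Finset (Finset (Fin n))} (h : Exp d R T U) (h' : Exp d R T' U)
    (hc : U.card = R.card + (n - 1).choose d) : Relation.ReflTransGen (Exchange n d) T T' := by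
  refine Relation.ReflTransGen.mono ?_ _ _ (h'.conn T h)
  rintro A B ⟨hA, hB, hx⟩
  exact ⟨hA.isHypertree hc, hA.collapsible, hB.isHypertree hc, hB.collapsible, hx⟩

/-- Sliding a ridge across a face all of whose other ridges are present. -/
lemma Exp.slide {R T U : Finset (Finset (Fin n))} (h : Exp d R T U) {τ ρ σ : Finset (Fin n)}
    (hτ : τ ∉ R) (hU : τ ∈ U) (hc : τ.card = d) (hsub : τ ⊆ σ) (hσ : σ.card = d + 1)
    (ho : ∀ ρ, ρ ⊆ σ → ρ.card = d → ρ ≠ τ → ρ ∈ R) (hρ : ρ ∈ R) (hρc : ρ.card = d)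
    (hρs : ρ ⊆ σ) : ∃ T', Exp d R T' U ∧ Exp d (insert τ (R.erase ρ)) T' U := by
  obtain ⟨s, -, h0⟩ := h.front hτ hU
  have hne : ρ ≠ τ := fun e => hτ (e ▸ hρ)
  refine ⟨insert σ (T.erase s), Exp.cons _ _ _ τ σ hτ hc hsub hσ ho h0,
    Exp.cons _ _ _ ρ σ (by simp [hne]) hρc hρs hσ ?_ ?_⟩
  · intro r a b c
    by_cases e : r = τ
    · rw [e]; exact mem_insert_self _ _
    · exact mem_insert_of_mem (mem_erase.mpr ⟨c, ho r a b e⟩)
  · rwa [insert_comm, insert_erase hρ]

end Pool.Agent.MP_797bdc_co

end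

-- part MP_797bdc_co.Two
section

/-! The case `d = 2`: the ridge set left by a collapse is a spanning tree, and spanning trees are
connected under edge slides. -/

namespace Pool.Agent.MP_797bdc_co

open Finset

variable {n : ℕ}

/-- An edge with one end in `N` and one end outside. -/
def Crosses (N ρ : Finset (Fin n)) : Prop := ∃ a ∈ N, ∃ b, b ∉ N ∧ ρ = {a, b}

lemma Exp.crosses {R T U : Finset (Finset (Fin n))} (h : Exp 2 R T U) (N : Finset (Fin n))
    (hU : ∃ ρ ∈ U, Crosses N ρ) : ∃ ρ ∈ R, Crosses N ρ := by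
  induction h with
  | nil U => exact hU
  | cons R T U τ σ hτ hc hsub hσ ho _ ih =>
    obtain ⟨ρ, hρ, hN⟩ := ih hU
    rcases mem_insert.mp hρ with rfl | hρ
    swap
    · exact ⟨ρ, hρ, hN⟩
    obtain ⟨a, ha, b, hb, rfl⟩ := hN
    obtain ⟨c, hc', rfl⟩ := Finset.exists_eq_insert_iff.mpr ⟨hsub, by omega⟩
    simp only [mem_insert, mem_singleton, not_or] at hc'
    have hab : a ≠ b := fun e => hb (e ▸ ha)
    by_cases hcN : c ∈ N
    · refine ⟨{c, b}, ho _ ?_ (card_pair hc'.2) ?_, c, hcN, b, hb, rfl⟩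
      · intro x; simp only [mem_insert, mem_singleton]; tauto
      · intro e
        have : c ∈ ({a, b} : Finset (Fin n)) := e ▸ mem_insert_self _ _
        simp only [mem_insert, mem_singleton] at this
        tauto
    · refine ⟨{a, c}, ho _ ?_ (card_pair (Ne.symm hc'.1)) ?_, a, ha, c, hcN, rfl⟩
      · intro x; simp only [mem_insert, mem_singleton]; tauto
      · intro e
        have : c ∈ ({a, b} : Finset (Fin n)) := e ▸ (by simp)
        simp only [mem_insert, mem_singleton] at this
        tauto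

/-- The star at `v`. -/
def star (v : Fin n) : Finset (Finset (Fin n)) := (univ.erase v).image fun x => {v, x}

lemma card_star (v : Fin n) : (star v).card = n - 1 := by
  rw [star, card_image_of_injOn]
  · simp
  · intro x hx y hy e
    have hx' : x ≠ v := by simpa using hx
    have : x ∈ ({v, y} : Finset (Fin n)) := by
      have e' : ({v, x} : Finset (Fin n)) = {v, y} := e
      rw [← e']; simp
    simp only [mem_insert, mem_singleton] at this
    tauto

lemma to_star (v : Fin n) (k : ℕ) : ∀ R T : Finset (Finset (Fin n)),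
    (star v \ R).card = k → R.card = n - 1 → Exp 2 R T (powersetCard 2 univ) →
    ∃ T', Exp 2 (star v) T' (powersetCard 2 univ) ∧
      Relation.ReflTransGen (Exchange n 2) T T' ∧ Relation.ReflTransGen (Exchange n 2) T' T := by
  have hn : 0 < n := Fin.pos v
  have hcard : (powersetCard 2 (univ : Finset (Fin n))).card = n - 1 + (n - 1).choose 2 := by
    obtain ⟨m, rfl⟩ : ∃ m, n = m + 1 := ⟨n - 1, by omega⟩
    simp [Nat.choose_succ_succ']
  induction k with
  | zero =>
    intro R T h0 hR hE
    have h1 : star v ⊆ R := sdiff_eq_empty_iff_subset.mp (card_eq_zero.mp h0)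
    have h2 : star v = R := eq_of_subset_of_card_le h1 (by rw [hR, card_star])
    exact ⟨T, h2 ▸ hE, .refl, .refl⟩
  | succ k ih =>
    intro R T h0 hR hE
    set N : Finset (Fin n) := univ.filter fun x => x = v ∨ ({v, x} : Finset (Fin n)) ∈ R with hN
    obtain ⟨ρ, hρ, a, ha, b, hb, rfl⟩ : ∃ ρ ∈ R, Crosses N ρ := by
      apply hE.crosses
      obtain ⟨e, he⟩ : (star v \ R).Nonempty := card_pos.mp (by omega)
      obtain ⟨he1, he2⟩ := mem_sdiff.mp he
      obtain ⟨x, hx, rfl⟩ := mem_image.mp he1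
      have hx' : x ≠ v := by simpa using hx
      refine ⟨{v, x}, by simp [card_pair hx'.symm], v, by simp [hN], x, ?_, rfl⟩
      simp [hN, hx', he2]
    simp only [hN, mem_filter, mem_univ, true_and, not_or] at ha hb
    have hav : a ≠ v := by
      rintro rfl
      exact hb.2 hρ
    have hva : ({v, a} : Finset (Fin n)) ∈ R := ha.resolve_left hav
    have hab : a ≠ b := by
      rintro rfl
      exact hb.2 hva
    have hvb : v ≠ b := Ne.symm hb.1
    have hc3 : ({v, a, b} : Finset (Fin n)).card = 2 + 1 := by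
      rw [card_insert_of_notMem (by simp [hav.symm, hvb]), card_pair hab]
    obtain ⟨T1, h1, h2⟩ := hE.slide (τ := {v, b}) (ρ := {a, b}) (σ := {v, a, b}) hb.2
      (by simp [card_pair hvb]) (card_pair hvb)
      (by intro x; simp only [mem_insert, mem_singleton]; tauto) hc3
      (by
        intro r hr hc hne
        obtain ⟨x, y, hxy, rfl⟩ := card_eq_two.mp hc
        have hx := hr (mem_insert_self _ _)
        have hy := hr (mem_insert_of_mem (mem_singleton_self _))
        simp only [mem_insert, mem_singleton] at hx hy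
        rcases hx with rfl | rfl | rfl <;> rcases hy with rfl | rfl | rfl
        all_goals first
          | exact (hxy rfl).elim
          | exact hva
          | exact hρ
          | exact (hne rfl).elim
          | (rw [pair_comm]; first | exact hva | exact hρ)
          | exact (hne (pair_comm _ _)).elim)
      hρ (card_pair hab) (subset_insert _ _)
    have hab' : ({a, b} : Finset (Fin n)) ∉ star v := by
      intro hm
      obtain ⟨x, -, hx⟩ := mem_image.mp hm
      have : v ∈ ({a, b} : Finset (Fin n)) := hx ▸ mem_insert_self _ _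
      simp only [mem_insert, mem_singleton] at this
      tauto
    have hvb' : ({v, b} : Finset (Fin n)) ∈ star v \ R :=
      mem_sdiff.mpr ⟨mem_image.mpr ⟨b, by simp [hb.1], rfl⟩, hb.2⟩
    obtain ⟨T', h3, h4, h5⟩ := ih _ T1 (by
      have : star v \ insert {v, b} (R.erase {a, b}) = (star v \ R).erase {v, b} := by
        ext e
        simp only [mem_sdiff, mem_insert, mem_erase, not_or, not_and]
        constructor
        · rintro ⟨h1, h2, h3⟩
          exact ⟨h2, h1, h3 (fun e' => hab' (e' ▸ h1))⟩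
        · rintro ⟨h1, h2, h3⟩
          exact ⟨h2, h1, fun _ => h3⟩
      rw [this, card_erase_of_mem hvb', h0]; rfl) (by
      rw [card_insert_of_notMem (fun hm => hb.2 (mem_of_mem_erase hm)), card_erase_of_mem hρ, hR]
      have := card_pos.mpr ⟨_, hρ⟩
      omega) h2
    exact ⟨T', h3, (hE.exchange h1 (by rw [hcard, hR])).trans h4,
      h5.trans (h1.exchange hE (by rw [hcard, hR]))⟩

theorem connected_two (hn : 3 ≤ n) (T T' : Finset (Finset (Fin n)))
    (hT : IsHypertree n 2 T) (hc : Collapsible 2 T)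
    (hT' : IsHypertree n 2 T') (hc' : Collapsible 2 T') :
    Relation.ReflTransGen (Exchange n 2) T T' := by
  have hcard : (powersetCard 2 (univ : Finset (Fin n))).card = n - 1 + (n - 1).choose 2 := by
    obtain ⟨m, rfl⟩ : ∃ m, n = m + 1 := ⟨n - 1, by omega⟩
    simp [Nat.choose_succ_succ']
  let v : Fin n := ⟨0, by omega⟩
  obtain ⟨R, hR⟩ := hc.exists_exp hT.1 (powersetCard 2 univ) (fun s _ ρ _ b => by simp [b])
  obtain ⟨R', hR'⟩ := hc'.exists_exp hT'.1 (powersetCard 2 univ) (fun s _ ρ _ b => by simp [b])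
  have e1 := hR.card_eq
  have e2 := hR'.card_eq
  rw [hT.2.2, hcard] at e1
  rw [hT'.2.2, hcard] at e2
  obtain ⟨A, hA, h1, -⟩ := to_star v _ R T rfl (by omega) hR
  obtain ⟨B, hB, -, h2⟩ := to_star v _ R' T' rfl (by omega) hR'
  exact (h1.trans (hA.exchange hB (by rw [hcard, card_star]))).trans h2

end Pool.Agent.MP_797bdc_co

end
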